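import Pool.Agent.Helper21.BP.Model
import Pool.Agent.Helper21.CR.Small

/-!
# Branching programs as machines without registers
-/

set_option autoImplicit false

namespace Pool.Agent.Helper21.BP

open Pool.Agent.Helper8.PR Pool.Agent.Helper21.MX

variable {n D C R : ℕ}

/-- The instances of the file `Pool/Agent/Helper22/ETModel.lean`. -/
abbrev EInst (n : ℕ) := Pool.Agent.Helper22.ETModel.Inst n

/-- The instance as one of ours. -/
def ofE (I : EInst n) : Inst n := ⟨I.flag, I.wt⟩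

/-- A polynomial in the weights as a polynomial in the weights and no registers. -/
noncomputable def up (f : Poly n) : RPol n 0 := MvPolynomial.rename Sum.inl f

lemma val_up (f : Poly n) (I : EInst n) (x : Fin 0 → ℝ) :
    RPol.val (up f) I x = value f (ofE I) := by
  unfold RPol.val up value
  rw [MvPolynomial.eval_rename]
  rfl

lemma sub_up (f : Poly n) (s : Fin 0 → WPol n) : sub s (up f) = f := by
  unfold sub up
  rw [MvPolynomial.aeval_rename]
  have : (Sum.elim MvPolynomial.X s ∘ Sum.inl : Fin n × Fin n → WPol n) = MvPolynomial.X := by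
    funext p; rfl
  rw [this]
  exact MvPolynomial.aeval_X_left_apply f

/-- The question as a query. -/
noncomputable def toQry : Question n → Qry n 0
  | .sign f => .sign (up f)
  | .zero f => .zero (up f)

lemma ans_toQry (Q : Question n) (I : EInst n) (x : Fin 0 → ℝ) :
    (toQry Q).ans I x = Q.answer (ofE I) := by
  classical
  cases Q with
  | sign f => simp [toQry, Qry.ans, Question.answer, val_up]
  | zero f => simp [toQry, Qry.ans, Question.answer, val_up]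

/-- A number as a state. -/
def st (P : Prog n D C) (v : ℕ) : Fin C := if h : v < C then ⟨v, h⟩ else P.start

lemma st_val (P : Prog n D C) (v : Fin C) : st P v = v := by
  simp [st]

/-- The machine of a randomized program. -/
noncomputable def toMach (A : RandProg n D C R) : Mach n D 0 R where
  init fl ρ := (A fl ρ).start
  upd _ _ _ _ i := i.elim0
  ask fl ρ t v := toQry ((A fl ρ).ask t (st (A fl ρ) v))
  next fl ρ t v x := (A fl ρ).next t (st (A fl ρ) v) x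
  out fl ρ v := (A fl ρ).accept (st (A fl ρ) v)

lemma conf_toMach (A : RandProg n D C R) (I : EInst n) (ρ : Fin R → Bool) (t : ℕ) :
    ((toMach A).conf I ρ t).1 = ((A I.flag ρ).state (ofE I) t : ℕ) := by
  induction t with
  | zero => rfl
  | succ t ih =>
    show (((A I.flag ρ).next t (st (A I.flag ρ) ((toMach A).conf I ρ t).1)
      ((toQry ((A I.flag ρ).ask t (st (A I.flag ρ) ((toMach A).conf I ρ t).1))).ans I
        ((fun i => _) : Fin 0 → ℝ)) : Fin C) : ℕ) = _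
    rw [ih, st_val, ans_toQry]
    rfl

lemma output_toMach (A : RandProg n D C R) (I : EInst n) (ρ : Fin R → Bool) :
    (toMach A).output I ρ = (A I.flag ρ).output (ofE I) := by
  show (A I.flag ρ).accept (st (A I.flag ρ) ((toMach A).conf I ρ D).1) = _
  rw [conf_toMach, st_val]
  rfl

lemma decides_toMach {A : RandProg n D C R} (h : Decides A) : (toMach A).Decides 300 := by
  classical
  intro I hI
  refine le_trans (h (ofE I) hI) (Nat.mul_le_mul_left 3 (Finset.card_le_card fun ρ hρ => ?_))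
  rw [Finset.mem_filter] at hρ ⊢
  rw [output_toMach]
  exact hρ

lemma sparseForm_of {s : ℕ} {x : ℝ} {B : ℕ} {f : Poly n} (h : Sparse s x B f) :
    Pool.Agent.Helper21.MG.SparseForm s ⌊x⌋₊ B f := by
  obtain ⟨z, γ, v, h1, h2, h3⟩ := h
  refine ⟨z, γ, v, h1, fun l => ?_, h3⟩
  have h4 := h2 l
  have h5 : ((|γ l| : ℤ) : ℝ) ≤ x := by
    push_cast; exact h4
  have h6 : ((|γ l|).toNat : ℝ) ≤ x := by
    have : (((|γ l|).toNat : ℤ) : ℝ) = ((|γ l| : ℤ) : ℝ) := by
      rw [Int.toNat_of_nonneg (abs_nonneg _)]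
    have h7 : (((|γ l|).toNat : ℕ) : ℝ) = (((|γ l|).toNat : ℤ) : ℝ) := by norm_cast
    rw [h7, this]; exact h5
  have h8 : (|γ l|).toNat ≤ ⌊x⌋₊ := Nat.le_floor h6
  have h9 : |γ l| = ((|γ l|).toNat : ℤ) := (Int.toNat_of_nonneg (abs_nonneg _)).symm
  rw [h9]
  exact_mod_cast h8

lemma within_toMach {A : RandProg n D C R} {s B : ℕ} {x K : ℝ}
    (h : ∀ fl ρ, (A fl ρ).Allowed s B x K) :
    WithinM (toMach A) 300 C ⌊K⌋₊ 1 s ⌊x⌋₊ B ⌊x⌋₊ := by
  classical
  refine ⟨fun fl ρ t _ => ?_, fun fl ρ => ?_, fun I ρ hI t ht f hf => ?_⟩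
  · refine ⟨Finset.univ.image fun v : Fin C => ((v : ℕ), fun i : Fin 0 => i.elim0), ?_, ?_⟩
    · exact le_trans Finset.card_image_le (by simp)
    · intro I _ _
      rw [Finset.mem_image]
      refine ⟨(A I.flag ρ).state (ofE I) t, Finset.mem_univ _, ?_⟩
      rw [Prod.ext_iff]
      exact ⟨(conf_toMach A I ρ t).symm, funext fun i => i.elim0⟩
  · obtain ⟨S, hS, hd, hq⟩ := h fl ρ
    refine ⟨S, Nat.le_floor hS, fun I hI hfl t ht f hf => ?_⟩
    subst hfl
    have hf' : toQry ((A I.flag ρ).ask t (st (A I.flag ρ) ((toMach A).conf I ρ t).1)) =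
      .sign f := hf
    cases hQ : (A I.flag ρ).ask t (st (A I.flag ρ) ((toMach A).conf I ρ t).1) with
    | sign g =>
      rw [hQ] at hf'
      have hg : up g = f := by simpa [toQry] using hf'
      rw [← hg, sub_up]
      rcases (hq t ht _ g).1 hQ with h1 | h1
      · exact Or.inl (sparseForm_of h1)
      · exact Or.inr ⟨h1, hd g h1⟩
    | zero g =>
      rw [hQ] at hf'
      simp [toQry] at hf'
  · obtain ⟨S, hS, hd, hq⟩ := h I.flag ρ
    have hf' : toQry ((A I.flag ρ).ask t (st (A I.flag ρ) ((toMach A).conf I ρ t).1)) =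
      .zero f := hf
    cases hQ : (A I.flag ρ).ask t (st (A I.flag ρ) ((toMach A).conf I ρ t).1) with
    | sign g =>
      rw [hQ] at hf'
      simp [toQry] at hf'
    | zero g =>
      rw [hQ] at hf'
      have hg : up g = f := by simpa [toQry] using hf'
      rw [← hg, sub_up]
      exact Nat.le_floor ((hq t ht _ g).2 hQ)

/-- Space `n ^ o(1)`. -/
theorem small_space (ε : ℝ) (hε : 0 < ε) : ∃ δ : ℝ, 0 < δ ∧ ∃ n₀ : ℕ, ∀ n : ℕ, n₀ ≤ n →
    ∀ (D C R : ℕ) (A : RandProg n D C R), Real.logb 2 C ≤ (n : ℝ) ^ δ →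
      (∀ fl ρ, (A fl ρ).Allowed 40 ((n : ℤ) ^ 20) ((n : ℝ) ^ δ) ((n : ℝ) ^ δ)) → Decides A →
        (n : ℝ) ^ (3 - ε) ≤ D := by
  obtain ⟨δ, hδ, n₀, hn⟩ := Pool.Agent.Helper21.CR.small 1 40 20 (by norm_num) (by norm_num)
    (by norm_num) ε hε
  refine ⟨δ, hδ, n₀, fun n hn0 D C R A hC hA hdec => ?_⟩
  have hfl : ((⌊(n : ℝ) ^ δ⌋₊ : ℕ) : ℝ) ≤ (n : ℝ) ^ δ := Nat.floor_le (by positivity)
  have hA' : ∀ fl ρ, (A fl ρ).Allowed 40 ((n ^ 20 : ℕ) : ℤ) ((n : ℝ) ^ δ) ((n : ℝ) ^ δ) := by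
    push_cast
    exact hA
  exact hn n hn0 C _ _ _ D 0 R (toMach A) hC hfl hfl hfl (within_toMach hA') (decides_toMach hdec)

/-- Space at most `n ^ (1/2)`. -/
theorem root_space : ∃ δ : ℝ, 0 < δ ∧ ∃ n₀ : ℕ, ∀ n : ℕ, n₀ ≤ n →
    ∀ (D C R : ℕ) (A : RandProg n D C R), Real.logb 2 C ≤ (n : ℝ) ^ (1 / 2 : ℝ) →
      (∀ fl ρ, (A fl ρ).Allowed 6 ((n : ℤ) ^ 20) ((n : ℝ) ^ δ) ((n : ℝ) ^ 4)) → Decides A →
        (n : ℝ) ^ (2.96 : ℝ) ≤ D * (1 + Real.logb 2 C) := by
  obtain ⟨δ, hδ, n₀, hn⟩ := Pool.Agent.Helper21.CR.root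
  refine ⟨δ, hδ, n₀, fun n hn0 D C R A hC hA hdec => ?_⟩
  have hfl : ((⌊(n : ℝ) ^ δ⌋₊ : ℕ) : ℝ) ≤ (n : ℝ) ^ δ := Nat.floor_le (by positivity)
  have hA' : ∀ fl ρ, (A fl ρ).Allowed 6 ((n ^ 20 : ℕ) : ℤ) ((n : ℝ) ^ δ) ((n ^ 4 : ℕ) : ℝ) := by
    push_cast
    exact hA
  have h4 : ⌊(((n ^ 4 : ℕ) : ℝ))⌋₊ ≤ n ^ 4 := by rw [Nat.floor_natCast]
  exact hn n hn0 C _ _ _ D 0 R (toMach A) hC h4 hfl hfl (within_toMach hA') (decides_toMach hdec)

end Pool.Agent.Helper21.BP
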