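import Mathlib

/-!
# Branching programs for Exact Triangle

Definitions only.
-/

set_option autoImplicit false

namespace Pool.Agent.Helper21.BP

/-- An instance of Exact Triangle on `n` vertices: an edge flag and an integer weight in every
cell of an `n × n` matrix. -/
structure Inst (n : ℕ) where
  flag : Fin n → Fin n → Bool
  wt : Fin n → Fin n → ℤ

/-- Valid instances: symmetric, loopless, all weights in `[-n^300, n^300]`. -/
def Inst.Valid {n : ℕ} (I : Inst n) : Prop :=
  (∀ i j, I.flag i j = I.flag j i) ∧ (∀ i, I.flag i i = false) ∧
  (∀ i j, I.wt i j = I.wt j i) ∧ (∀ i j, |I.wt i j| ≤ (n : ℤ) ^ 300)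

/-- Yes-instances: some triangle of edges has total weight zero. -/
def Inst.Yes {n : ℕ} (I : Inst n) : Prop :=
  ∃ i j k : Fin n, i ≠ j ∧ j ≠ k ∧ i ≠ k ∧
    I.flag i j = true ∧ I.flag j k = true ∧ I.flag i k = true ∧
    I.wt i j + I.wt j k + I.wt i k = 0

/-- The real polynomials in all the weights. -/
abbrev Poly (n : ℕ) := MvPolynomial (Fin n × Fin n) ℝ

/-- The value of a polynomial in the weights. -/
noncomputable def value {n : ℕ} (f : Poly n) (I : Inst n) : ℝ :=
  MvPolynomial.eval (fun p : Fin n × Fin n => (I.wt p.1 p.2 : ℝ)) f

/-- The questions about the weights: the sign of a polynomial (`sign`), and whether a polynomial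
vanishes (`zero`). -/
inductive Question (n : ℕ)
  | sign (f : Poly n)
  | zero (f : Poly n)

open Classical in
/-- The answer to a question (for `zero f` it is `0` or `1`). -/
noncomputable def Question.answer {n : ℕ} (I : Inst n) : Question n → SignType
  | .sign f => SignType.sign (value f I)
  | .zero f => if value f I = 0 then 0 else 1

/-- Branching programs with `D` questions and `C` states: in the state `v` after `t` questions the
program asks the question `ask t v`, and then goes to the state `next t v x`, where `x` is the
answer. After `D` questions the state decides whether the program accepts. -/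
structure Prog (n D C : ℕ) where
  start : Fin C
  ask : ℕ → Fin C → Question n
  next : ℕ → Fin C → SignType → Fin C
  accept : Fin C → Bool

/-- The state of the program after `t` questions. -/
noncomputable def Prog.state {n D C : ℕ} (P : Prog n D C) (I : Inst n) : ℕ → Fin C
  | 0 => P.start
  | t + 1 => P.next t (P.state I t) ((P.ask t (P.state I t)).answer I)

/-- The output of the program. -/
noncomputable def Prog.output {n D C : ℕ} (P : Prog n D C) (I : Inst n) : Bool :=
  P.accept (P.state I D)

/-- An integer affine form in at most `s` weights, with coefficients of absolute value at most `x`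
and constant term of absolute value at most `B`. -/
def Sparse {n : ℕ} (s : ℕ) (x : ℝ) (B : ℤ) (f : Poly n) : Prop :=
  ∃ (z : ℤ) (γ : Fin s → ℤ) (v : Fin s → Fin n × Fin n), |z| ≤ B ∧ (∀ l, |(γ l : ℝ)| ≤ x) ∧
    f = MvPolynomial.C (z : ℝ) + ∑ l, MvPolynomial.C (γ l : ℝ) * MvPolynomial.X (v l)

/-- The restriction: every question for a sign is about a sparse form (`Sparse s x B`) or about one
of at most `K` polynomials of degree at most one, and every question for a zero is about a
polynomial of degree at most `x`. -/
def Prog.Allowed {n D C : ℕ} (P : Prog n D C) (s : ℕ) (B : ℤ) (x K : ℝ) : Prop :=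
  ∃ S : Finset (Poly n), S.card ≤ K ∧ (∀ f ∈ S, f.totalDegree ≤ 1) ∧
    ∀ t < D, ∀ v f, (P.ask t v = .sign f → Sparse s x B f ∨ f ∈ S) ∧
      (P.ask t v = .zero f → f.totalDegree ≤ x)

/-- A randomized branching program: the program depends in an arbitrary way on the flags and on
`R` random bits. -/
abbrev RandProg (n D C R : ℕ) := (Fin n → Fin n → Bool) → (Fin R → Bool) → Prog n D C

open Classical in
/-- The randomized program decides Exact Triangle: on every valid instance it is right with
probability at least `2/3`. -/
def Decides {n D C R : ℕ} (A : RandProg n D C R) : Prop :=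
  ∀ I : Inst n, I.Valid →
    2 * 2 ^ R ≤ 3 * (Finset.univ.filter fun ρ : Fin R → Bool =>
      ((A I.flag ρ).output I = true ↔ I.Yes)).card

end Pool.Agent.Helper21.BP
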